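import Pool.Agent.Work.MP_2738db_nt_C_helper1.FinalCC
import Pool.Agent.Work.MP_2738db_nt_C_helper16.FORM

/-!
MP_2738db_nt (the Fermat-Catalan conjecture).

There is a set `E` of integers of density zero (at most `C N / (log N) ^ δ` of its elements are at
most `N`) such that for all coprime `a, b` and all exponents with `a ^ m + b ^ n = c ^ k`:
if `c` is not in `E` then `m` and `n` are coprime; if `a` is not in `E` then `n` and `k` are coprime
(or `n = k = 2`); if `b` is not in `E` then `m` and `k` are coprime (or `m = k = 2`).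

So for 100 percent of the positive integers `x`, in every solution of the Fermat-Catalan equation
which contains `x` as a base, the exponents of the two other terms are coprime.
-/

set_option autoImplicit false

namespace Pool.Agent.Results.MP_2738db_nt.CoprimeExponents

theorem result :
    ∃ (E : Set ℕ) (C δ : ℝ), 0 < δ ∧
      (∀ N : ℕ, 2 ≤ N → ((E ∩ Set.Icc 1 N).ncard : ℝ) ≤ C * N / Real.log N ^ δ) ∧
      ∀ a b c m n k : ℕ, 1 ≤ a → 1 ≤ b → 1 ≤ c → 1 ≤ m → 1 ≤ n → 1 ≤ k → Nat.Coprime a b →
        a ^ m + b ^ n = c ^ k →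
        (c ∉ E → Nat.Coprime m n) ∧ (a ∉ E → Nat.Coprime n k ∨ n = 2 ∧ k = 2) ∧
          (b ∉ E → Nat.Coprime m k ∨ m = 2 ∧ k = 2) :=
  Pool.Agent.Work.MP_2738db_nt_C.helper16.form Pool.Agent.Work.MP_2738db_nt_C.helper1.final_CC

end Pool.Agent.Results.MP_2738db_nt.CoprimeExponents
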