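import Pool.Agent.Work.MP_2738db_nt_Y_helper16.AllW

set_option autoImplicit false

/-!
Gap principle for coprime solutions of `a ^ m + b ^ n = c ^ k` (in any arrangement of the signs)
whose exponents have common factors.  Let `p` divide `m` and `n`, and let `M` be the largest of the
three terms.  Let `t = d * u` be a term such that all primes dividing `d` are `≤ y`.
Then `u ≥ M ^ (1 - η)` in each of the following cases:
* `p` is prime, `t` is `a ^ m` or `b ^ n` and `η = C y ^ 15 p (log k) ^ 3 / k`;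
* `p` is prime, `t` is any of the three terms, a prime `q` divides `n` and `k`, and
  `η = C y ^ 15 (log P) ^ 8 / √P`, `P = max p q`;
* `p ≥ 3`, `t` is any of the three terms and `η = C' p y (log k) ^ 3 / k`.
-/

namespace Pool.Agent.Results.MP_2738db_nt.GapPrinciple

theorem result :
    ∃ (C : ℝ) (C' : ℕ → ℕ → ℝ), ∀ (a b c m n k p y t d u : ℕ) (η : ℝ), 1 ≤ a → 1 ≤ b → 1 ≤ c →
      Nat.Coprime a b → 1 ≤ m → 1 ≤ n → 2 ≤ k →
      (a ^ m + b ^ n = c ^ k ∨ b ^ n + c ^ k = a ^ m ∨ c ^ k + a ^ m = b ^ n) →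
      p ∣ m → p ∣ n →
      (p.Prime ∧ (t = a ^ m ∨ t = b ^ n) ∧ η = C * y ^ 15 * (p * Real.log k ^ 3 / k) ∨
        p.Prime ∧ (t = a ^ m ∨ t = b ^ n ∨ t = c ^ k) ∧ (∃ q : ℕ, q.Prime ∧ q ∣ n ∧ q ∣ k ∧
          η = C * y ^ 15 *
            (Real.log ((max p q : ℕ) : ℝ) ^ 8 / Real.sqrt ((max p q : ℕ) : ℝ))) ∨
        3 ≤ p ∧ (t = a ^ m ∨ t = b ^ n ∨ t = c ^ k) ∧ η = C' p y * (Real.log k ^ 3 / k)) →
      1 ≤ y → t = d * u → (∀ r : ℕ, r.Prime → r ∣ d → r ≤ y) →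
      ((max (a ^ m) (max (b ^ n) (c ^ k)) : ℕ) : ℝ) ^ (1 - η) ≤ (u : ℝ) :=
  Pool.Agent.Work.MP_2738db_nt_Y.helper16.main_yw

end Pool.Agent.Results.MP_2738db_nt.GapPrinciple
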