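import Mathlib
import Pool.Agent.Work.MP_2738db_R.All

/-!
MP_2738db_nt (the Fermat-Catalan conjecture).

Counting all solutions.  For `X ≥ C`, `K ≥ 2`, `C K log log X ≤ log X` at most
`X ^ (C log (2 K) / K ^ (2/3))` value triples `(a ^ m, b ^ n, c ^ k)` of solutions with `c ^ k ≤ X`
have an exponent `≥ K` or a base whose radical is `≤ X ^ (1 / K)`.
-/

set_option autoImplicit false

namespace Pool.Agent.Results.MP_2738db_nt.RadicalCount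

theorem result :
    ∃ C : ℝ, 0 < C ∧ ∀ X K : ℝ, C ≤ X → 2 ≤ K → C * K * Real.log (Real.log X) ≤ Real.log X →
      {τ : ℕ × ℕ × ℕ | ∃ a b c m n k : ℕ, 0 < a ∧ 0 < b ∧ 0 < c ∧ 0 < m ∧ 0 < n ∧ 0 < k ∧
        Nat.Coprime a b ∧ Nat.Coprime b c ∧ Nat.Coprime a c ∧
        (1 : ℚ) / m + 1 / n + 1 / k < 1 ∧ a ^ m + b ^ n = c ^ k ∧ (c : ℝ) ^ k ≤ X ∧
        (K ≤ m ∨ K ≤ n ∨ K ≤ k ∨
          ((∏ p ∈ a.primeFactors, p : ℕ) : ℝ) ≤ X ^ (1 / K) ∨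
          ((∏ p ∈ b.primeFactors, p : ℕ) : ℝ) ≤ X ^ (1 / K) ∨
          ((∏ p ∈ c.primeFactors, p : ℕ) : ℝ) ≤ X ^ (1 / K)) ∧
        τ = (a ^ m, b ^ n, c ^ k)}.Finite ∧
      ({τ : ℕ × ℕ × ℕ | ∃ a b c m n k : ℕ, 0 < a ∧ 0 < b ∧ 0 < c ∧ 0 < m ∧ 0 < n ∧ 0 < k ∧
        Nat.Coprime a b ∧ Nat.Coprime b c ∧ Nat.Coprime a c ∧
        (1 : ℚ) / m + 1 / n + 1 / k < 1 ∧ a ^ m + b ^ n = c ^ k ∧ (c : ℝ) ^ k ≤ X ∧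
        (K ≤ m ∨ K ≤ n ∨ K ≤ k ∨
          ((∏ p ∈ a.primeFactors, p : ℕ) : ℝ) ≤ X ^ (1 / K) ∨
          ((∏ p ∈ b.primeFactors, p : ℕ) : ℝ) ≤ X ^ (1 / K) ∨
          ((∏ p ∈ c.primeFactors, p : ℕ) : ℝ) ≤ X ^ (1 / K)) ∧
        τ = (a ^ m, b ^ n, c ^ k)}.ncard : ℝ) ≤
        X ^ (C * Real.log (2 * K) / K ^ ((2 : ℝ) / 3)) :=
  Pool.FCR.theoremR_final Pool.FCR.theoremR

end Pool.Agent.Results.MP_2738db_nt.RadicalCount
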