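import Mathlib
import Pool.Agent.Work.MP_2738db_nt_S_helper1.FamHP

/-!
MP_2738db_nt (the Fermat-Catalan conjecture).  Let `F` be a family of at most `N ^ κ` sets of at most
`H` integers in `[2, X]`, `N ≥ exp (H (log log X)^(1+ε))`, `W = exp ((log N / H)^(1/(1+ε)))` (so
`W ≥ log X`), and `g x + r`, `1 ≤ x ≤ N`, an arithmetic progression of terms at most `X`.  All but
`N^(1-κ)` of the terms `c` are such that no power of `c` differs from a perfect power `a ^ m` by an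
element `B`, coprime to `c`, of a monoid generated by a set of `F` (in one of the three arrangements
of the signs), where for some prime `p ≤ W` one has `p ∣ m`, or `log B ≤ W ord_p B`, or `B = b ^ n`
with `log b ≤ W` and either `p ∣ c` or `log n ≤ W` and `log k ≤ W`.
-/

set_option autoImplicit false

namespace Pool.Agent.Results.MP_2738db_nt.SmoothBases

theorem result :
    ∀ ε : ℝ, 0 < ε → ∃ κ X₀ : ℝ, 0 < κ ∧
      ∀ (X N g r : ℕ) (H W : ℝ) (F : Finset (Finset ℕ)), X₀ ≤ X → 1 ≤ H →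
      Real.exp (H * Real.log (Real.log X) ^ (1 + ε)) ≤ N →
      W = Real.exp ((Real.log N / H) ^ (1 / (1 + ε))) → (F.card : ℝ) ≤ (N : ℝ) ^ κ →
      (∀ S ∈ F, (S.card : ℝ) ≤ H ∧ ∀ b ∈ S, 2 ≤ b ∧ b ≤ X) → 1 ≤ g → g * N + r ≤ X →
      ({x : ℕ | 1 ≤ x ∧ x ≤ N ∧ ∃ S ∈ F, ∃ a B m k p : ℕ,
        B ∈ Submonoid.closure (S : Set ℕ) ∧ Nat.Coprime B (g * x + r) ∧
        1 ≤ a ∧ 2 ≤ m ∧ 1 ≤ k ∧ p.Prime ∧ (p : ℝ) ≤ W ∧
        (p ∣ m ∨ Real.log B ≤ W * padicValNat p B ∨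
          ∃ b n : ℕ, B = b ^ n ∧ Real.log b ≤ W ∧
            (p ∣ g * x + r ∨ Real.log n ≤ W ∧ Real.log k ≤ W)) ∧
        (a ^ m + B = (g * x + r) ^ k ∨ B + (g * x + r) ^ k = a ^ m ∨
          (g * x + r) ^ k + a ^ m = B)}.ncard : ℝ) ≤ (N : ℝ) ^ (1 - κ) :=
  Pool.Agent.Work.MP_2738db_nt_S.helper1.final_FamHP

end Pool.Agent.Results.MP_2738db_nt.SmoothBases
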